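import Pool.Agent.Helper39.HCI.Main

/-!
# Highly connected binary matroids without `O_m` and its dual are graphic or cographic
-/

namespace Pool.Agent.Results.MP_e134a3_co.GraphicOrCographic

open Pool.Agent.Helper39.TC Pool.Agent.Helper39.HCI

/-- For every `m ≥ 4` there is `k` such that for every minor-closed class `𝓜` of binary
matroids, no member of which is `O_m` or the dual of `O_m` (`O_m` = the cycle matroid of the
complete graph on `m` vertices with one further element, the sum of four vertices), every Tutte
`k`-connected member with at least `2 * k` elements is graphic or cographic, and `𝓜` has the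
structure of the question. -/
theorem result (m : ℕ) (hm : 4 ≤ m) : ∃ k : ℕ, ∀ 𝓜 : MClass (ZMod 2), MinorClosed 𝓜 →
    (∀ (n : ℕ) (U : Submodule (ZMod 2) (Fin n → ZMod 2)), 𝓜 n U → ¬ IsO m U) →
    (∀ (n : ℕ) (U : Submodule (ZMod 2) (Fin n → ZMod 2)), 𝓜 n U → ¬ IsO m (dual U)) →
    (∀ (n : ℕ) (U : Submodule (ZMod 2) (Fin n → ZMod 2)), 𝓜 n U → TutteConn k U → 2 * k ≤ n →
      IsFrame U ∨ IsFrame (dual U)) ∧ HasStructure 𝓜 :=
  main m hm

end Pool.Agent.Results.MP_e134a3_co.GraphicOrCographic
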