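import Pool.Agent.LCN.Main

/-!
# Girth, minimum distance and connectivity in minor-closed classes which omit a matroid over the
prime field
-/

namespace Pool.Agent.Results.MP_e134a3_co.LargeConnectivity

open Pool.Agent.Helper39.TC
open Pool.Agent.LCN (OverPrimeField AsymptoticallyGood)

/-- Let `𝓜` be a minor-closed class of `F`-represented matroids which does not contain all
matroids represented over the prime field of `F` (for `F` of prime order: a proper class). There
are `C` and `d` such that for every member with `n` elements and rank `r`: if the girth is at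
least `k ≥ 3` then `n - r ≤ C (r / k) ^ (d + 1)`; if all nonzero vectors of the row space have
weight at least `k ≥ 3` then `r ≤ C ((n - r) / k) ^ (d + 1)`; and if it is Tutte `k`-connected and
`n ≥ 2 k` then `k ^ (d + 1) ≤ C n ^ d`. In particular `𝓜`, as a class of linear codes, is
asymptotically bad. -/
theorem result (F : Type) [Field F] [Finite F] (𝓜 : MClass F) (hclosed : MinorClosed 𝓜)
    (homit : ∃ (n : ℕ) (U : Submodule F (Fin n → F)), OverPrimeField U ∧ ¬ 𝓜 n U) :
    (∃ C d : ℕ,
      (∀ (n : ℕ) (U : Submodule F (Fin n → F)), 𝓜 n U → ∀ k : ℕ, 3 ≤ k →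
        (∀ v ∈ dual U, v ≠ 0 → k ≤ {x | v x ≠ 0}.ncard) →
        (n - Module.finrank F U) * k ^ (d + 1) ≤ C * Module.finrank F U ^ (d + 1)) ∧
      (∀ (n : ℕ) (U : Submodule F (Fin n → F)), 𝓜 n U → ∀ k : ℕ, 3 ≤ k →
        (∀ v ∈ U, v ≠ 0 → k ≤ {x | v x ≠ 0}.ncard) →
        Module.finrank F U * k ^ (d + 1) ≤ C * (n - Module.finrank F U) ^ (d + 1)) ∧
      (∀ (n : ℕ) (U : Submodule F (Fin n → F)), 𝓜 n U → ∀ k : ℕ, TutteConn k U → 2 * k ≤ n →
        k ^ (d + 1) ≤ C * n ^ d)) ∧
    ¬ AsymptoticallyGood 𝓜 :=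
  Pool.Agent.LCN.main 𝓜 hclosed homit

end Pool.Agent.Results.MP_e134a3_co.LargeConnectivity
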