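import Pool.Agent.Helper39.TC.Clique

/-!
# Highly Tutte-connected members of classes without all graphic and without all cographic matroids
-/

namespace Pool.Agent.Results.MP_e134a3_co.NoCliques

open Pool.Agent.Helper39.TC

/-- For every finite field `F` and every `m` there is `k` such that for every minor-closed class
`𝓜` of `F`-represented matroids, no member of which is `M(K_m)` or the dual of `M(K_m)`, every
`k`-connected member has fewer than `2 * k` elements, and `𝓜` has the structure of the question. -/
theorem result (F : Type) [Field F] [Finite F] (m : ℕ) :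
    ∃ k : ℕ, ∀ 𝓜 : MClass F, MinorClosed 𝓜 →
      (∀ (n : ℕ) (U : Submodule F (Fin n → F)), 𝓜 n U → ¬ IsClique m U) →
      (∀ (n : ℕ) (U : Submodule F (Fin n → F)), 𝓜 n U → ¬ IsClique m (dual U)) →
      (∀ (n : ℕ) (U : Submodule F (Fin n → F)), 𝓜 n U → TutteConn k U → n < 2 * k) ∧
        HasStructure 𝓜 :=
  final F m

end Pool.Agent.Results.MP_e134a3_co.NoCliques
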