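import Pool.Agent.SFT.Main

/-!
# Highly connected represented matroids without `N_m(a)` and its dual are confined to a subfield
-/

namespace Pool.Agent.Results.MP_e134a3_co.Subfields

open Pool.Agent.Helper39.TC Pool.Agent.SFT

/-- For every finite field `F`, every proper subfield `K` and every `m ≥ 3` there is `k` such that
for every minor-closed class `𝓜` of `F`-represented matroids, no member of which is `N_m(a)` or the
dual of `N_m(a)` for an `a` not in `K` (`N_m(a)` = the cycle matroid of the complete graph on `m`
vertices with one further element, which is supported on three vertices and has the ratio `a`;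
columns may be scaled), every Tutte `k`-connected member with at least `2 * k` elements is, up to
column scaling, confined to `K`, and `𝓜` has the structure of the question. -/
theorem result (F : Type) [Field F] [Finite F] (K : Subfield F) (hK : K ≠ ⊤) (m : ℕ)
    (hm : 3 ≤ m) : ∃ k : ℕ, ∀ 𝓜 : MClass F, MinorClosed 𝓜 →
    (∀ (n : ℕ) (U : Submodule F (Fin n → F)), 𝓜 n U → ¬ IsN K m U) →
    (∀ (n : ℕ) (U : Submodule F (Fin n → F)), 𝓜 n U → ¬ IsN K m (dual U)) →
    (∀ (n : ℕ) (U : Submodule F (Fin n → F)), 𝓜 n U → TutteConn k U → 2 * k ≤ n →
      ConfinedTo K U) ∧ HasStructureS 𝓜 :=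
  main F K hK m hm

end Pool.Agent.Results.MP_e134a3_co.Subfields
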